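import Mathlib
import Pool.Agent.Y242.CK.Sparse
import Pool.Agent.Results.MP_459ac8_an.ZeroDensity

set_option autoImplicit false

/-!
# Representing systems of Cauchy kernels in `H^p`, `1 ≤ p < ∞`: the exact threshold

The definitions `Circ`, `cauchyKernel`, `MemHardy`, `IsRepresenting`, `upperDensity` are those of
`Pool.Agent.Results.MP_459ac8_an.ZeroDensity`.

Sketch of the proof of sufficiency.  Level `k` consists of the `2^k` points of modulus `1 - ρ_k` whose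
arguments are multiples of `2π / 2^k`, taken in the van der Corput order, so that every initial part of
the level is a union of cosets of groups of roots of unity of orders `2^i`, at most one for each `i`.
For a polynomial `g` of degree less than `M` the sum of `ρ_k g(μ) k_μ(z)` over a coset of order `M` is
`M ρ_k g(r² z) / (1 - (c z)^M)` with `|c| = r = 1 - ρ_k`.  Functions of `z^N`, `N` large, are
almost independent of `g`, so `‖g - t g F‖_p` is almost `‖g‖_p ‖1 - t F‖_p`, where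
`F = ∑_{a ≤ k < b} 2^k ρ_k / (1 - (r_k z)^(2^k))`, `1 ≤ F(0) ≤ 3/2`.  The real part of `F` is at least `1/2`
and the moments of `F` of even order are bounded, because
`∫ |F|^(2m) ≤ 2 (-1)^m Re ∫ F^(2m) + C_m ∫ (Re F)^(2m)` and `Re F` is a sum of Poisson kernels of
widely different scales.  So `‖1 - t F‖_p ≤ q < 1` for a small `t` depending only on `p`.  Applied
repeatedly to the remainders this gives the expansion.  Necessity: the distance in `L¹` of `k_ν` from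
the span of finitely many kernels is at least `1 - |ν|` times the product of the pseudohyperbolic
distances of `ν` from their points.
-/

namespace Pool.Agent.Results.MP_459ac8_an.SharpSparsityAll

open Pool.Agent.Results.MP_459ac8_an.ZeroDensity (IsRepresenting upperDensity)
open scoped ENNReal

/-- The van der Corput sequence `0, 1/2, 1/4, 3/4, 1/8, 5/8, 3/8, 7/8, …`: the binary digits of `n` are
written in the reverse order after the binary point. -/
noncomputable def corput : ℕ → ℝ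
  | 0 => 0
  | n + 1 => (((n + 1) % 2 : ℕ) : ℝ) / 2 + corput ((n + 1) / 2) / 2
decreasing_by exact Nat.div_lt_self (Nat.succ_pos n) (by norm_num)

/-- The points `(1 - ρ_k) exp (2πi v_j)`, `0 ≤ j < 2^k`, `k = 0, 1, 2, …`, in this order, where `v` is the
van der Corput sequence: the point of index `n` has `k = ⌊log₂ (n + 1)⌋` and `j = n + 1 - 2^k`.
(`v_0, …, v_{2^k - 1}` are the multiples of `2^(-k)` in `[0, 1)`.) -/
noncomputable def corputNet (ρ : ℕ → ℝ) (n : ℕ) : ℂ :=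
  ((1 - ρ (Nat.log 2 (n + 1)) : ℝ) : ℂ) *
    Complex.exp (2 * Real.pi * Complex.I * (corput (n + 1 - 2 ^ Nat.log 2 (n + 1)) : ℝ))

/-- The same points `(1 - ρ_k) exp (2πi j / 2^k)`, `0 ≤ j < 2^k`, `k = 0, 1, 2, …`, in the natural
order: the point of index `n` has `k = ⌊log₂ (n + 1)⌋` and `j = n + 1 - 2^k`
(note that `exp (2πi (n + 1) / 2^k) = exp (2πi j / 2^k)`). -/
noncomputable def dyadicNet (ρ : ℕ → ℝ) (n : ℕ) : ℂ :=
  ((1 - ρ (Nat.log 2 (n + 1)) : ℝ) : ℂ) *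
    Complex.exp (2 * Real.pi * Complex.I * ((n + 1 : ℕ) : ℂ) / (2 : ℂ) ^ Nat.log 2 (n + 1))

lemma corput_eq (n : ℕ) : corput n = Pool.Agent.Y242.CK.vdc n := by
  induction n using Nat.strong_induction_on with
  | _ n ih =>
    cases n with
    | zero => rw [corput, Pool.Agent.Y242.CK.vdc_zero]
    | succ n =>
      rw [corput, Pool.Agent.Y242.CK.vdc_eq, ih _ (Nat.div_lt_self (Nat.succ_pos n) (by norm_num))]

lemma netv_eq (ρ : ℕ → ℝ) : corputNet ρ = Pool.Agent.Y242.CK.netv ρ := by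
  funext n
  rw [Pool.Agent.Y242.CK.netv, Pool.Agent.Y242.CK.Q, Pool.Agent.Y242.CK.qt, corputNet,
    Pool.Agent.Y242.CK.e2, corput_eq]

lemma net_eq (ρ : ℕ → ℝ) : dyadicNet ρ = Pool.Agent.Y242.CK.net ρ := by
  funext n
  rw [Pool.Agent.Y242.CK.net, Pool.Agent.Y242.CK.P, Pool.Agent.Y242.CK.pt, dyadicNet]
  congr 1
  set k := Nat.log 2 (n + 1) with hk
  have hk1 : 2 ^ k ≤ n + 1 := Nat.pow_log_le_self 2 (by omega)
  obtain ⟨j, hj⟩ := Nat.exists_eq_add_of_le hk1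
  rw [hj, Nat.add_sub_cancel_left, Pool.Agent.Y242.CK.rt, ← Complex.exp_nat_mul]
  have h2 : ((2 : ℂ) ^ k) ≠ 0 := pow_ne_zero _ two_ne_zero
  have h1 : 2 * (Real.pi : ℂ) * Complex.I * ((2 ^ k + j : ℕ) : ℂ) / (2 : ℂ) ^ k =
      (j : ℂ) * (2 * Real.pi * Complex.I / ((2 ^ k : ℕ) : ℂ)) + 2 * Real.pi * Complex.I := by
    push_cast
    field_simp
    ring
  rw [h1, Complex.exp_add, Complex.exp_two_pi_mul_I, mul_one]

/-- (1) For every nonincreasing sequence `ε` of positive numbers with `∑ ε n = ∞` there are distinct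
points `Λ 0, Λ 1, …` of the disc, ordered by their moduli, with `1 - |Λ n| ≤ ε n` for all `n`, whose
Cauchy kernels form a representing system in `H^p` for all `1 ≤ p < ∞` at once; if `∑ ε n < ∞` then no
sequence with `1 - |Λ n| ≤ ε n` is representing in any `H^p`, `p ≥ 1`.
(2) For the explicit nets of the points `(1 - ρ_k) exp (2πij/2^k)`, `0 ≤ j < 2^k`,
`0 < ρ_k ≤ 2^(-k-1)` strictly decreasing, each level in the van der Corput order, and for every
`1 ≤ p < ∞`: the system is representing in `H^p` exactly when `∑ 2^k ρ_k = ∞`, that is, when the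
Blaschke condition fails.
(3) In `H²` the same holds for the natural order.
(4) The starting result: some `Λ` of upper density zero is representing in all `H^p`, `1 ≤ p < ∞`. -/
theorem result :
    (∀ ε : ℕ → ℝ, Antitone ε → (∀ n, 0 < ε n) →
      ((∃ Λ : ℕ → ℂ, Function.Injective Λ ∧ (∀ n, ‖Λ n‖ < 1) ∧ (Monotone fun n => ‖Λ n‖) ∧
        (∀ n, 1 - ‖Λ n‖ ≤ ε n) ∧ ∀ p : ℝ≥0∞, 1 ≤ p → p ≠ ∞ → IsRepresenting p Λ) ↔ ¬ Summable ε) ∧
      ((∃ Λ : ℕ → ℂ, (∀ n, ‖Λ n‖ < 1) ∧ (∀ n, 1 - ‖Λ n‖ ≤ ε n) ∧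
        ∃ p : ℝ≥0∞, 1 ≤ p ∧ IsRepresenting p Λ) ↔ ¬ Summable ε)) ∧
    (∀ ρ : ℕ → ℝ, StrictAnti ρ → (∀ k, 0 < ρ k) → (∀ k, (2 : ℝ) ^ k * ρ k ≤ 1 / 2) →
      Function.Injective (corputNet ρ) ∧ (∀ n, ‖corputNet ρ n‖ < 1) ∧
      (Summable (fun n => 1 - ‖corputNet ρ n‖) ↔ Summable fun k => (2 : ℝ) ^ k * ρ k) ∧
      ∀ p : ℝ≥0∞, 1 ≤ p → p ≠ ∞ →
        (IsRepresenting p (corputNet ρ) ↔ ¬ Summable fun k => (2 : ℝ) ^ k * ρ k)) ∧
    (∀ ρ : ℕ → ℝ, StrictAnti ρ → (∀ k, 0 < ρ k) → (∀ k, (2 : ℝ) ^ k * ρ k ≤ 1 / 2) →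
      Function.Injective (dyadicNet ρ) ∧ (∀ n, ‖dyadicNet ρ n‖ < 1) ∧
      (Summable (fun n => 1 - ‖dyadicNet ρ n‖) ↔ Summable fun k => (2 : ℝ) ^ k * ρ k) ∧
      (IsRepresenting 2 (dyadicNet ρ) ↔ ¬ Summable fun k => (2 : ℝ) ^ k * ρ k)) ∧
    (∃ Λ : ℕ → ℂ, Function.Injective Λ ∧ (∀ n, ‖Λ n‖ < 1) ∧ upperDensity Λ = 0 ∧
      ∀ p : ℝ≥0∞, 1 ≤ p → p ≠ ∞ → IsRepresenting p Λ) := by
  refine ⟨fun ε h1 h2 => ⟨⟨?_, ?_⟩, ⟨?_, ?_⟩⟩, fun ρ ha h0 h1 => ?_, fun ρ ha h0 h1 => ?_,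
    Pool.Agent.Results.MP_459ac8_an.ZeroDensity.result⟩
  · rintro ⟨Λ, _, h3, _, h4, h5⟩
    exact Pool.Agent.Y242.CK.sparse_nec ε h3 h4 one_le_two
      (h5 2 one_le_two (by norm_num))
  · exact Pool.Agent.Y242.CK.sparse_all ε h1 h2
  · rintro ⟨Λ, h3, h4, p, h5, h6⟩
    exact Pool.Agent.Y242.CK.sparse_nec ε h3 h4 h5 h6
  · intro hd
    obtain ⟨Λ, _, h3, _, h4, h5⟩ := Pool.Agent.Y242.CK.sparse_all ε h1 h2 hd
    exact ⟨Λ, h3, h4, 1, le_rfl, h5 1 le_rfl (by norm_num)⟩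
  · have hlt := Pool.Agent.Y242.CK.lt_one_of h0 h1
    rw [netv_eq]
    exact ⟨Pool.Agent.Y242.CK.netv_inj hlt ha, Pool.Agent.Y242.CK.netv_lt h0 hlt,
      Pool.Agent.Y242.CK.summable_netv h0 hlt,
      fun p hp hpt => Pool.Agent.Y242.CK.netv_iff h0 h1 hp hpt⟩
  · have hlt := Pool.Agent.Y242.CK.lt_one_of h0 h1
    rw [net_eq]
    exact ⟨Pool.Agent.Y242.CK.net_inj hlt ha, Pool.Agent.Y242.CK.net_lt h0 hlt,
      Pool.Agent.Y242.CK.summable_net h0 hlt, Pool.Agent.Y242.CK.net_iff h0 h1⟩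

end Pool.Agent.Results.MP_459ac8_an.SharpSparsityAll
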